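import Pool.Agent.Helper1.RK.StE
import Pool.Agent.Helper58.RK.M_LEG

/-! Project RK (owner helper1), module TWF: two forms for general cubics. -/

set_option autoImplicit false

namespace Pool.Agent.Helper79.RK

open Pool.Agent.Helper1.RK Polynomial

private theorem twf_leg {L : Type} [Field L] [CharZero L] [IsAlgClosed L] (a b : L)
    (hdisc : 4 * a ^ 3 + 27 * b ^ 2 ≠ 0) (d : Derivation ℤ L L) (hda : d a = 0) (hdb : d b = 0) :
    ∃ t x l : L, t ≠ 0 ∧ l ≠ 0 ∧ l ≠ 1 ∧ d t = 0 ∧ d x = 0 ∧ d l = 0 ∧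
      ∀ u : RatFunc L, wei a b u = RatFunc.C (t ^ 3) *
        leg l ((u - RatFunc.C x) / RatFunc.C t) := by
  obtain ⟨e0, e1, e2, hs, ha, hbE⟩ := Pool.Agent.Helper58.RK.leg_roots a b
  have hd : 4 * a ^ 3 + 27 * b ^ 2 = -((e0 - e1) * (e0 - e2) * (e1 - e2)) ^ 2 := by
    have h2 : e2 = -e0 - e1 := by linear_combination hs
    rw [ha, hbE, h2]
    ring
  have hne : (e0 - e1) * (e0 - e2) * (e1 - e2) ≠ 0 := by
    intro h
    apply hdisc
    rw [hd, h]
    ring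
  have h01 : e0 ≠ e1 := fun h => hne (by rw [h]; ring)
  have h02 : e0 ≠ e2 := fun h => hne (by rw [h]; ring)
  have h12 : e1 ≠ e2 := fun h => hne (by rw [h]; ring)
  have ht : e1 - e0 ≠ 0 := sub_ne_zero.2 h01.symm
  have HbE : (RatFunc.C b : RatFunc L) = -(RatFunc.C e0 * RatFunc.C e1 * RatFunc.C e2) := by
    rw [hbE]; simp
  have Hsum : (RatFunc.C e0 + RatFunc.C e1 + RatFunc.C e2 : RatFunc L) = 0 := by
    rw [← map_add, ← map_add, hs, map_zero]
  have HaE : (RatFunc.C a : RatFunc L) = RatFunc.C e0 * RatFunc.C e1 +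
      RatFunc.C e0 * RatFunc.C e2 + RatFunc.C e1 * RatFunc.C e2 := by
    rw [ha]; simp
  have hw : ∀ u : RatFunc L, wei a b u =
      (u - RatFunc.C e0) * (u - RatFunc.C e1) * (u - RatFunc.C e2) := by
    intro u
    unfold wei
    rw [HaE, HbE]
    linear_combination (u ^ 2) * Hsum
  have hroot : ∀ e : L, e ^ 3 + a * e + b = 0 → 3 * e ^ 2 + a ≠ 0 → d e = 0 := by
    intro e he h3
    have h1 := congrArg d he
    have h2 : e ^ 3 = e * (e * e) := by ring
    rw [h2, map_add, map_add, map_zero, Derivation.leibniz, Derivation.leibniz,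
      Derivation.leibniz, hda, hdb] at h1
    simp only [smul_eq_mul] at h1
    have h4 : (3 * e ^ 2 + a) * d e = 0 := by linear_combination h1
    exact (mul_eq_zero.1 h4).resolve_left h3
  have hz0 : e0 ^ 3 + a * e0 + b = 0 := by rw [ha, hbE]; linear_combination (e0 ^ 2) * hs
  have hz1 : e1 ^ 3 + a * e1 + b = 0 := by rw [ha, hbE]; linear_combination (e1 ^ 2) * hs
  have hz2 : e2 ^ 3 + a * e2 + b = 0 := by rw [ha, hbE]; linear_combination (e2 ^ 2) * hs
  have hk0 : 3 * e0 ^ 2 + a ≠ 0 := by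
    have h1 : 3 * e0 ^ 2 + a = (e0 - e1) * (e0 - e2) := by
      rw [ha]; linear_combination (2 * e0) * hs
    rw [h1]
    exact mul_ne_zero (sub_ne_zero.2 h01) (sub_ne_zero.2 h02)
  have hk1 : 3 * e1 ^ 2 + a ≠ 0 := by
    have h1 : 3 * e1 ^ 2 + a = (e1 - e0) * (e1 - e2) := by
      rw [ha]; linear_combination (2 * e1) * hs
    rw [h1]
    exact mul_ne_zero (sub_ne_zero.2 h01.symm) (sub_ne_zero.2 h12)
  have hk2 : 3 * e2 ^ 2 + a ≠ 0 := by
    have h1 : 3 * e2 ^ 2 + a = (e2 - e0) * (e2 - e1) := by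
      rw [ha]; linear_combination (2 * e2) * hs
    rw [h1]
    exact mul_ne_zero (sub_ne_zero.2 h02.symm) (sub_ne_zero.2 h12.symm)
  have d0 := hroot e0 hz0 hk0
  have d1 := hroot e1 hz1 hk1
  have d2 := hroot e2 hz2 hk2
  have dt : d (e1 - e0) = 0 := by rw [map_sub, d1, d0, sub_zero]
  refine ⟨e1 - e0, e0, (e2 - e0) / (e1 - e0), ht, div_ne_zero (sub_ne_zero.2 h02.symm) ht, ?_,
    dt, d0, Pool.Agent.Helper58.RK.leg_div d ht (by rw [map_sub, d2, d0, sub_zero]) dt, ?_⟩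
  · intro h
    rw [div_eq_one_iff_eq ht] at h
    exact h12 (by linear_combination -h)
  · intro u
    have hT : (RatFunc.C (e1 - e0) : RatFunc L) ≠ 0 :=
      (map_ne_zero (RatFunc.C : L →+* RatFunc L)).2 ht
    rw [hw]
    unfold leg
    have h1 : (RatFunc.C ((e1 - e0) ^ 3) : RatFunc L) = RatFunc.C (e1 - e0) ^ 3 := map_pow _ _ _
    have h2 : (RatFunc.C ((e2 - e0) / (e1 - e0)) : RatFunc L) =
        (RatFunc.C e2 - RatFunc.C e0) / RatFunc.C (e1 - e0) := by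
      rw [map_div₀, map_sub]
    have h3 : (RatFunc.C e1 : RatFunc L) = RatFunc.C (e1 - e0) + RatFunc.C e0 := by
      rw [← map_add, sub_add_cancel]
    rw [h1, h2, h3]
    generalize RatFunc.C (e1 - e0) = T at hT ⊢
    field_simp
    ring

private theorem twf_der {L : Type} [Field L] (D : Derivation ℤ (RatFunc L) (RatFunc L))
    {t x : L} (ht : t ≠ 0) (h1 : D (RatFunc.C t) = 0) (h2 : D (RatFunc.C x) = 0)
    (u : RatFunc L) : D ((u - RatFunc.C x) / RatFunc.C t) * RatFunc.C t = D u := by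
  have hT : (RatFunc.C t : RatFunc L) ≠ 0 := (map_ne_zero (RatFunc.C : L →+* RatFunc L)).2 ht
  have h3 : (u - RatFunc.C x) / RatFunc.C t * RatFunc.C t = u - RatFunc.C x :=
    div_mul_cancel₀ _ hT
  have h4 := congrArg D h3
  rw [Derivation.leibniz, h1, smul_zero, zero_add, map_sub, h2, sub_zero, smul_eq_mul] at h4
  rw [mul_comm]
  exact h4

theorem pTWF (h1 : StCL1) : StTWF := by
  intro L _ _ _ d Dc Dt a b a' b' e u v hDc hDt hda hdb hda' hdb' hdisc hdisc' he hu hv hsq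
  obtain ⟨t, x, l, ht, hl0, hl1, hdt, hdx, hdl, hw⟩ := twf_leg a b hdisc d hda hdb
  obtain ⟨t', x', l', ht', hl0', hl1', hdt', hdx', hdl', hw'⟩ := twf_leg a' b' hdisc' d hda' hdb'
  obtain ⟨z, hz⟩ : ∃ z, z = (u - RatFunc.C x) / RatFunc.C t := ⟨_, rfl⟩
  obtain ⟨z', hz'⟩ : ∃ z', z' = (v - RatFunc.C x') / RatFunc.C t' := ⟨_, rfl⟩
  have e1 : wei a b u = RatFunc.C (t ^ 3) * leg l z := by rw [hz]; exact hw u
  have e2 : wei a' b' v = RatFunc.C (t' ^ 3) * leg l' z' := by rw [hz']; exact hw' v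
  have hlz : leg l z ≠ 0 := fun h => hu (by rw [e1, h, mul_zero])
  have hlz' : leg l' z' ≠ 0 := fun h => hv (by rw [e2, h, mul_zero])
  have hk : e * (t ^ 3 * t' ^ 3) ≠ 0 :=
    mul_ne_zero he (mul_ne_zero (pow_ne_zero 3 ht) (pow_ne_zero 3 ht'))
  obtain ⟨s, hs⟩ := IsAlgClosed.exists_eq_mul_self (e * (t ^ 3 * t' ^ 3))
  have hs0 : s ≠ 0 := by
    rintro rfl
    rw [mul_zero] at hs
    exact hk hs
  have hS : (RatFunc.C s : RatFunc L) ≠ 0 := (map_ne_zero (RatFunc.C : L →+* RatFunc L)).2 hs0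
  have hsq2 : IsSquare (leg l z * leg l' z') := by
    obtain ⟨w, hw0⟩ := hsq
    refine ⟨w / RatFunc.C s, ?_⟩
    have h3 : (RatFunc.C s * RatFunc.C s : RatFunc L) * (leg l z * leg l' z') = w * w := by
      rw [← hw0, e1, e2, ← map_mul, ← hs, map_mul, map_mul]
      ring
    rw [div_mul_div_comm, eq_div_iff (mul_ne_zero hS hS), ← h3]
    ring
  have h4 := h1 L d Dc Dt l l' z z' hl0 hl1 hl0' hl1' hdl hdl' hDc hDt hlz hlz' hsq2
  have hDcC : ∀ y : L, d y = 0 → Dc (RatFunc.C y) = 0 := fun y hy => by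
    rw [hDc.1, hy, map_zero]
  have hDtC : ∀ y : L, Dt (RatFunc.C y) = 0 := fun y => by
    rw [hDt.1]
    simp
  have f1 := twf_der Dc ht (hDcC t hdt) (hDcC x hdx) u
  have f2 := twf_der Dt ht (hDtC t) (hDtC x) u
  have f3 := twf_der Dc ht' (hDcC t' hdt') (hDcC x' hdx') v
  have f4 := twf_der Dt ht' (hDtC t') (hDtC x') v
  rw [← hz] at f1 f2
  rw [← hz'] at f3 f4
  rw [← f1, ← f2, ← f3, ← f4]
  linear_combination (RatFunc.C t * RatFunc.C t') * h4

end Pool.Agent.Helper79.RK
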